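import Mathlib
import Pool.Agent.H562.BP.Stm

/-!
# Project BP (helper562), piece Z: the SU(2) state sum as a double sum of sines
-/

set_option autoImplicit false

open Finset

namespace H787BP562

open W719AEC H562BP

theorem sum_labels (r : ℕ) (f : (Fin 2 → ℕ) → ℂ) :
    ∑ x ∈ labels 2 r, f x = ∑ a ∈ Ico 1 r, f ![0, a] := by
  refine Finset.sum_nbij' (fun x => x 1) (fun a => ![0, a]) ?_ ?_ ?_ ?_ ?_
  · intro x hx
    unfold labels at hx
    rw [mem_filter, Fintype.mem_piFinset] at hx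
    obtain ⟨h1, h2, h3⟩ := hx
    have h4 := h2 0 1 (by decide)
    have h5 := h3 0 rfl
    have h6 := mem_range.mp (h1 1)
    rw [mem_Ico]
    omega
  · intro a ha
    rw [mem_Ico] at ha
    unfold labels
    rw [mem_filter, Fintype.mem_piFinset]
    refine ⟨?_, ?_, ?_⟩
    · intro i
      fin_cases i
      · simp only [mem_range]
        show (0 : ℕ) < r
        omega
      · simp only [mem_range]
        show a < r
        omega
    · intro i j hij
      fin_cases i <;> fin_cases j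
      · exact absurd hij (by decide)
      · show (0 : ℕ) < a
        omega
      · exact absurd hij (by decide)
      · exact absurd hij (by decide)
    · intro i hi
      fin_cases i
      · rfl
      · exact absurd hi (by decide)
  · intro x hx
    unfold labels at hx
    rw [mem_filter] at hx
    funext i
    fin_cases i
    · exact (hx.2.2 0 rfl).symm
    · rfl
  · intro a _
    rfl
  · intro x hx
    unfold labels at hx
    rw [mem_filter] at hx
    congr 1
    funext i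
    fin_cases i
    · exact hx.2.2 0 rfl
    · rfl

theorem sum_pi_two (s : Finset (Fin 2 → ℕ)) (f : (Fin 2 → ℕ) → (Fin 2 → ℕ) → ℂ) :
    ∑ x ∈ Fintype.piFinset (fun _ : Fin 2 => s), f (x 0) (x 1) = ∑ a ∈ s, ∑ b ∈ s, f a b := by
  rw [← Finset.sum_product']
  refine Finset.sum_nbij' (fun x => (x 0, x 1)) (fun p => ![p.1, p.2]) ?_ ?_ ?_ ?_ ?_
  · intro x hx
    rw [Fintype.mem_piFinset] at hx
    rw [mem_product]
    exact ⟨hx 0, hx 1⟩
  · intro p hp
    rw [mem_product] at hp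
    rw [Fintype.mem_piFinset]
    intro i
    fin_cases i
    · exact hp.1
    · exact hp.2
  · intro x _
    funext i
    fin_cases i <;> rfl
  · intro p _
    rfl
  · intro x _
    rfl

theorem Smat_two (r a b : ℕ) (hr : 1 ≤ r) :
    Smat 2 r ![0, a] ![0, b] =
      ((2 / (Real.sqrt 2 * Real.sqrt r) * Real.sin (Real.pi * ((a : ℝ) * b) / r) : ℝ) : ℂ) := by
  unfold Smat
  have hr' : (r : ℂ) ≠ 0 := by
    have : r ≠ 0 := by omega
    exact_mod_cast this
  rw [Matrix.det_fin_two]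
  simp only [Matrix.of_apply, Fin.sum_univ_two, Matrix.cons_val_zero, Matrix.cons_val_one,
    Nat.cast_zero, zero_add, mul_zero, zero_mul, zero_div, neg_zero, Complex.exp_zero, one_mul,
    mul_one]
  have e1 : (2 * (2 - 1) / 2 : ℕ) = 1 := by norm_num
  have e2 : (2 - 1 : ℕ) = 1 := by norm_num
  rw [e1, e2, pow_one, pow_one]
  set θ : ℂ := Real.pi * ((a : ℂ) * b) / r with hθ
  have e3 : 2 * (Real.pi : ℂ) * Complex.I * ((a : ℂ) * b / ((2 : ℕ) * r)) = θ * Complex.I := by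
    rw [hθ]; push_cast; field_simp
  have e4 : -(2 * (Real.pi : ℂ) * Complex.I * ((a : ℂ) * b / r)) =
      -θ * Complex.I + -θ * Complex.I := by
    rw [hθ]; field_simp; ring
  rw [e3, e4, Complex.exp_add]
  have e5 : ((Real.sin (Real.pi * ((a : ℝ) * b) / r) : ℝ) : ℂ) = Complex.sin θ := by
    rw [hθ]; push_cast; rfl
  have e6 : Complex.exp (θ * Complex.I) * Complex.exp (-θ * Complex.I) = 1 := by
    rw [← Complex.exp_add]; simp
  have e7 : Complex.exp (θ * Complex.I) * (Complex.exp (-θ * Complex.I) *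
      Complex.exp (-θ * Complex.I) - 1) = Complex.exp (-θ * Complex.I) -
      Complex.exp (θ * Complex.I) := by
    linear_combination Complex.exp (-θ * Complex.I) * e6
  have e8 : Complex.exp (-θ * Complex.I) - Complex.exp (θ * Complex.I) =
      -(2 * Complex.I) * Complex.sin θ := by
    rw [Complex.sin]
    have := Complex.I_mul_I
    linear_combination (Complex.exp (-θ * Complex.I) - Complex.exp (θ * Complex.I)) * this
  rw [mul_assoc, e7, e8]
  push_cast
  have e9 : Complex.sin (Real.pi * ((a : ℂ) * b) / r) = Complex.sin θ := by rw [hθ]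
  rw [e9]
  have := Complex.I_mul_I
  have hs : ((Real.sqrt 2 : ℝ) : ℂ) * ((Real.sqrt r : ℝ) : ℂ) ≠ 0 := by
    have h1 : Real.sqrt 2 ≠ 0 := by positivity
    have h2 : Real.sqrt r ≠ 0 := by
      have : (0 : ℝ) < r := by exact_mod_cast hr
      positivity
    exact mul_ne_zero (by exact_mod_cast h1) (by exact_mod_cast h2)
  rw [div_mul_eq_mul_div, div_mul_eq_mul_div]
  congr 1
  linear_combination (-2 * Complex.sin θ) * this

theorem triv_two : triv 2 = ![0, 1] := by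
  funext i
  fin_cases i <;> rfl

theorem deg_zero (g₁ g₂ : ℕ) : (bp g₁ g₂).degree 0 = 2 := by
  show (univ.filter fun e : Fin 2 => (![0, 0] : Fin 2 → Fin 2) e = 0).card +
    (univ.filter fun e : Fin 2 => (![1, 1] : Fin 2 → Fin 2) e = 0).card = 2
  decide

theorem deg_one (g₁ g₂ : ℕ) : (bp g₁ g₂).degree 1 = 2 := by
  show (univ.filter fun e : Fin 2 => (![0, 0] : Fin 2 → Fin 2) e = 1).card +
    (univ.filter fun e : Fin 2 => (![1, 1] : Fin 2 → Fin 2) e = 1).card = 2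
  decide

theorem z_holds : S_Z := by
  intro g₁ g₂ r hg1 hg2 hr
  have h1 : (bp g₁ g₂).Z 2 r = ∑ x ∈ Fintype.piFinset (fun _ : Fin 2 => labels 2 r),
      (fun a b : Fin 2 → ℕ => Smat 2 r (triv 2) a ^ (-(2 * (g₁ : ℤ))) *
        Smat 2 r (triv 2) b ^ (-(2 * (g₂ : ℤ))) *
        (Smat 2 r a b * (starRingEnd ℂ) (Smat 2 r a b))) (x 0) (x 1) := by
    unfold PlumbingGraph.Z
    refine Finset.sum_congr rfl fun x _ => ?_
    rw [Fin.prod_univ_two, Fin.prod_univ_two, deg_zero, deg_one]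
    have e0 : (bp g₁ g₂).euler 0 = 0 := rfl
    have e1 : (bp g₁ g₂).euler 1 = 0 := rfl
    have g0 : (bp g₁ g₂).genus 0 = g₁ := rfl
    have g1 : (bp g₁ g₂).genus 1 = g₂ := rfl
    have s0 : (bp g₁ g₂).src 0 = 0 := rfl
    have s1 : (bp g₁ g₂).src 1 = 0 := rfl
    have t0 : (bp g₁ g₂).tgt 0 = 1 := rfl
    have t1 : (bp g₁ g₂).tgt 1 = 1 := rfl
    have p0 : (bp g₁ g₂).positive 0 = true := rfl
    have p1 : (bp g₁ g₂).positive 1 = false := rfl
    rw [e0, e1, g0, g1, s0, s1, t0, t1, p0, p1]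
    have z1 : (2 : ℤ) - 2 * (g₁ : ℤ) - ((2 : ℕ) : ℤ) = -(2 * (g₁ : ℤ)) := by push_cast; ring
    have z2 : (2 : ℤ) - 2 * (g₂ : ℤ) - ((2 : ℕ) : ℤ) = -(2 * (g₂ : ℤ)) := by push_cast; ring
    rw [z1, z2, zpow_zero, zpow_zero, one_mul, one_mul]
    rfl
  have h2 := sum_pi_two (labels 2 r) (fun a b : Fin 2 → ℕ =>
    Smat 2 r (triv 2) a ^ (-(2 * (g₁ : ℤ))) * Smat 2 r (triv 2) b ^ (-(2 * (g₂ : ℤ))) *
      (Smat 2 r a b * (starRingEnd ℂ) (Smat 2 r a b)))
  refine (h1.trans h2).trans ?_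
  unfold A
  rw [sum_labels, Finset.mul_sum, Complex.ofReal_sum]
  refine Finset.sum_congr rfl fun a ha => ?_
  rw [sum_labels, Finset.mul_sum, Complex.ofReal_sum]
  refine Finset.sum_congr rfl fun b hb => ?_
  rw [triv_two, Smat_two r 1 a hr, Smat_two r 1 b hr, Smat_two r a b hr, Complex.conj_ofReal]
  have hr' : (0 : ℝ) < r := by exact_mod_cast hr
  have hsin : ∀ c ∈ Ico 1 r, 0 < Real.sin (Real.pi * c / r) := by
    intro c hc
    rw [mem_Ico] at hc
    have hc0 : (0 : ℝ) < c := by exact_mod_cast hc.1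
    have hc1 : (c : ℝ) < r := by exact_mod_cast hc.2
    refine Real.sin_pos_of_pos_of_lt_pi (by positivity) ?_
    rw [div_lt_iff₀ hr']
    exact mul_lt_mul_of_pos_left hc1 Real.pi_pos
  have hsa := hsin a ha
  have hsb := hsin b hb
  have k1 : Real.pi * (((1 : ℕ) : ℝ) * a) / r = Real.pi * a / r := by push_cast; ring
  have k2 : Real.pi * (((1 : ℕ) : ℝ) * b) / r = Real.pi * b / r := by push_cast; ring
  rw [k1, k2]
  rw [show ∀ x y z : ℝ, ((x : ℂ)) ^ (-(2 * (g₁ : ℤ))) * ((y : ℂ)) ^ (-(2 * (g₂ : ℤ))) *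
      ((z : ℂ) * (z : ℂ)) = ((x ^ (-(2 * (g₁ : ℤ))) * y ^ (-(2 * (g₂ : ℤ))) * (z * z) : ℝ) : ℂ) by
    intro x y z; push_cast; rfl]
  congr 1
  have hs2 : (2 / (Real.sqrt 2 * Real.sqrt r)) ^ 2 = 2 / (r : ℝ) := by
    rw [div_pow, mul_pow, Real.sq_sqrt (by norm_num : (0 : ℝ) ≤ 2), Real.sq_sqrt hr'.le]
    field_simp
  set c : ℝ := 2 / (Real.sqrt 2 * Real.sqrt r) with hc
  have hcp : 0 < c := by rw [hc]; positivity
  have hpow : ∀ (g : ℕ) (s : ℝ), 0 < s → (c * s) ^ (-(2 * (g : ℤ))) =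
      ((r : ℝ) / 2) ^ g / s ^ (2 * g) := by
    intro g s hs
    rw [zpow_neg]
    have : (c * s) ^ (2 * (g : ℤ)) = (c * s) ^ (2 * g) := by
      rw [← zpow_natCast]; push_cast; rfl
    rw [this, mul_pow, pow_mul c 2 g, hs2, mul_inv, ← inv_pow, inv_div, div_eq_mul_inv _ (s ^ (2 * g))]
  rw [hpow g₁ _ hsa, hpow g₂ _ hsb]
  obtain ⟨m, hm⟩ : ∃ m, g₁ + g₂ = m + 1 := ⟨g₁ + g₂ - 1, by omega⟩
  have hm' : g₁ + g₂ - 1 = m := by omega
  rw [hm']
  have hmul : ((r : ℝ) / 2) ^ g₁ * ((r : ℝ) / 2) ^ g₂ * (2 / r) = ((r : ℝ) / 2) ^ m := by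
    rw [← pow_add, hm, pow_succ]
    field_simp
  have hfin : ((r : ℝ) / 2) ^ g₁ / Real.sin (Real.pi * a / r) ^ (2 * g₁) *
      (((r : ℝ) / 2) ^ g₂ / Real.sin (Real.pi * b / r) ^ (2 * g₂)) *
      (c * Real.sin (Real.pi * (a * b) / r) * (c * Real.sin (Real.pi * (a * b) / r))) =
      (((r : ℝ) / 2) ^ g₁ * ((r : ℝ) / 2) ^ g₂ * c ^ 2) * (Real.sin (Real.pi * (a * b) / r) ^ 2 /
        (Real.sin (Real.pi * a / r) ^ (2 * g₁) * Real.sin (Real.pi * b / r) ^ (2 * g₂))) := by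
    field_simp
  rw [hfin, hs2, hmul]

end H787BP562
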